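import Pool.Agent.Work.MP_db9399_all.Interface

/-!
# Block PE1: many coincidences along a map, from EXPO
-/

set_option autoImplicit false

namespace Pool.Agent.Work.MP_db9399_all

open Finset Classical

universe u v

namespace h65

theorem pr_mono {Ω : Type u} [Fintype Ω] {E F : Ω → Prop} (h : ∀ ω, E ω → F ω) : pr E ≤ pr F := by
  unfold pr
  have h1 : (univ.filter E).card ≤ (univ.filter F).card := by
    apply Finset.card_le_card
    intro ω hω
    rw [Finset.mem_filter] at hω ⊢
    exact ⟨hω.1, h ω hω.2⟩
  have h2 : (((univ.filter E).card : ℕ) : ℝ) ≤ ((univ.filter F).card : ℝ) := by exact_mod_cast h1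
  exact div_le_div_of_nonneg_right h2 (Nat.cast_nonneg _)

theorem pr_nonneg {Ω : Type u} [Fintype Ω] (E : Ω → Prop) : 0 ≤ pr E := by
  unfold pr; positivity

theorem pr_le_one {Ω : Type u} [Fintype Ω] (E : Ω → Prop) : pr E ≤ 1 := by
  unfold pr
  apply div_le_one_of_le₀
  · exact_mod_cast Finset.card_le_univ _
  · exact Nat.cast_nonneg _

theorem pr_eq_zero {Ω : Type u} [Fintype Ω] (E : Ω → Prop) (h : ∀ ω, ¬ E ω) : pr E = 0 := by
  unfold pr
  have : univ.filter E = (∅ : Finset Ω) := by
    ext ω
    simp [h ω]
  rw [this]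
  simp

theorem pe1_aux {J : Type u} [Fintype J] (hE : Stmt_EXPO.{u}) (n : ℕ) (e : J → Fin n → ℕ)
    (M : Finset (J × Fin n)) (g : J × Fin n → J × Fin n) (he : ∀ j, Function.Injective (e j))
    (hg : ∀ p ∈ M, g p ∉ M) (hM : 2 * M.card < n) (M' : Finset (J × Fin n)) (hM' : M' ⊆ M) :
    pr (fun ω : Cfg J n => ∀ p ∈ M', col e ω p = col e ω (g p)) ≤
      (1 / ((n : ℝ) - 2 * M.card)) ^ M'.card := by
  have hpos : (0 : ℝ) < (n : ℝ) - 2 * M.card := by
    have : ((2 * M.card : ℕ) : ℝ) < (n : ℝ) := by exact_mod_cast hM
    push_cast at this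
    linarith
  induction M' using Finset.induction_on with
  | empty => simpa using pr_le_one _
  | @insert p M' hp ih =>
    have hpM : p ∈ M := hM' (Finset.mem_insert_self _ _)
    have hsub : M' ⊆ M := fun x hx => hM' (Finset.mem_insert_of_mem hx)
    have ih' := ih hsub
    obtain ⟨j, s⟩ := p
    set Q : Finset (J × Fin n) := M.image g ∪ M' with hQ
    have hjs : (j, s) ∉ Q := by
      rw [hQ, Finset.mem_union, Finset.mem_image]
      rintro (⟨q, hq, hq'⟩ | h)
      · exact hg q hq (hq' ▸ hpM)
      · exact hp h
    have key := hE J n Q (fun ω => ∀ p ∈ M', col e ω p = col e ω (g p))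
      (fun ω => univ.filter (fun b => e j b = col e ω (g (j, s)))) j s 1 ?_ ?_ hjs ?_
    · -- conclusion
      rw [Finset.card_insert_of_notMem hp, pow_succ]
      have hq : ((Q.filter (fun p => p.1 = j)).card : ℝ) ≤ 2 * M.card := by
        have h1 : (Q.filter (fun p => p.1 = j)).card ≤ Q.card := Finset.card_filter_le _ _
        have h2 : Q.card ≤ M.card + M.card := by
          refine (Finset.card_union_le _ _).trans ?_
          exact Nat.add_le_add Finset.card_image_le (Finset.card_le_card hsub)
        have h3 : (Q.filter (fun p => p.1 = j)).card ≤ 2 * M.card := by omega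
        exact_mod_cast h3
      have h4 : pr (fun ω : Cfg J n => ∀ p ∈ insert (j, s) M', col e ω p = col e ω (g p)) ≤
          pr (fun ω : Cfg J n => (∀ p ∈ M', col e ω p = col e ω (g p)) ∧
            ω j s ∈ univ.filter (fun b => e j b = col e ω (g (j, s)))) := by
        apply pr_mono
        intro ω hω
        refine ⟨fun p hp => hω p (Finset.mem_insert_of_mem hp), ?_⟩
        rw [Finset.mem_filter]
        exact ⟨Finset.mem_univ _, hω (j, s) (Finset.mem_insert_self _ _)⟩
      set a := pr (fun ω : Cfg J n => (∀ p ∈ M', col e ω p = col e ω (g p)) ∧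
            ω j s ∈ univ.filter (fun b => e j b = col e ω (g (j, s)))) with ha
      set b := pr (fun ω : Cfg J n => ∀ p ∈ M', col e ω p = col e ω (g p)) with hb
      have ha0 : 0 ≤ a := pr_nonneg _
      have h5 : ((n : ℝ) - 2 * M.card) * a ≤ b := by
        have : ((n : ℝ) - 2 * M.card) * a ≤
            ((n : ℝ) - ((Q.filter (fun p => p.1 = j)).card : ℝ)) * a := by
          apply mul_le_mul_of_nonneg_right _ ha0
          linarith
        simp only [Nat.cast_one, one_mul] at key
        exact this.trans key
      have h6 : a ≤ b * (1 / ((n : ℝ) - 2 * M.card)) := by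
        rw [mul_one_div, le_div_iff₀ hpos]
        linarith
      refine h4.trans (h6.trans ?_)
      apply mul_le_mul_of_nonneg_right ih'
      positivity
    · -- DepOn A
      intro ω ω' h
      apply propext
      have hc : ∀ p ∈ M', (col e ω p = col e ω' p) ∧ (col e ω (g p) = col e ω' (g p)) := by
        intro p hp
        constructor
        · unfold col; rw [h p (Finset.mem_union_right _ hp)]
        · unfold col
          rw [h (g p) (Finset.mem_union_left _ (Finset.mem_image_of_mem g (hsub hp)))]
      constructor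
      · intro h1 p hp
        rw [← (hc p hp).1, ← (hc p hp).2]; exact h1 p hp
      · intro h1 p hp
        rw [(hc p hp).1, (hc p hp).2]; exact h1 p hp
    · -- DepOn R
      intro ω ω' h
      have : col e ω (g (j, s)) = col e ω' (g (j, s)) := by
        unfold col
        rw [h (g (j, s)) (Finset.mem_union_left _ (Finset.mem_image_of_mem g hpM))]
      simp only [this]
    · intro ω _
      rw [Finset.card_le_one]
      intro b hb b' hb'
      rw [Finset.mem_filter, Finset.mem_filter] at hb hb'
      exact he j (hb.1.2.trans hb'.1.2.symm)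

end h65

theorem stmt_PE1 (hE : Stmt_EXPO.{u}) : Stmt_PE1.{u} := by
  intro J _ n e M g he hg hM
  exact h65.pe1_aux hE n e M g he hg hM M (Finset.Subset.refl _)

end Pool.Agent.Work.MP_db9399_all
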