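import Pool.Agent.Work.MP_db9399_all_helper65.PE1

/-!
# Block PE3: few coincidences between two sets of positions without common block, from EXPO
-/

set_option autoImplicit false

namespace Pool.Agent.Work.MP_db9399_all

open Finset Classical

universe u v

namespace h65

/-- the inner colours of a block avoiding `C` -/
theorem free_card {n h : ℕ} (e : Fin n → ℕ) (he : Function.Injective e) (hlt : ∀ a, e a < n + h)
    (C : Finset ℕ) (hC : C ⊆ range (n + h)) (r : ℕ) (hr : r + h ≤ C.card) :
    (univ.filter (fun b : Fin n => e b ∉ C)).card + r ≤ n := by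
  have h1 : (univ.filter (fun b : Fin n => e b ∉ C)).card +
      (univ.filter (fun b : Fin n => e b ∈ C)).card = n := by
    have := Finset.card_filter_add_card_filter_not (s := (univ : Finset (Fin n)))
      (fun b : Fin n => e b ∈ C)
    rw [Finset.card_univ, Fintype.card_fin] at this
    omega
  -- C ⊆ image of the second set, plus the colours missed by `e`
  have h2 : C ⊆ (univ.filter (fun b : Fin n => e b ∈ C)).image e ∪
      (range (n + h) \ (univ : Finset (Fin n)).image e) := by
    intro c hc
    by_cases hce : c ∈ (univ : Finset (Fin n)).image e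
    · obtain ⟨b, _, hb⟩ := Finset.mem_image.1 hce
      apply Finset.mem_union_left
      rw [Finset.mem_image]
      exact ⟨b, Finset.mem_filter.2 ⟨Finset.mem_univ _, hb ▸ hc⟩, hb⟩
    · apply Finset.mem_union_right
      exact Finset.mem_sdiff.2 ⟨hC hc, hce⟩
  have h3 : (range (n + h) \ (univ : Finset (Fin n)).image e).card = h := by
    rw [Finset.card_sdiff_of_subset, Finset.card_range, Finset.card_image_of_injective _ he,
      Finset.card_univ, Fintype.card_fin]
    · omega
    · intro c hc
      obtain ⟨b, _, hb⟩ := Finset.mem_image.1 hc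
      exact Finset.mem_range.2 (hb ▸ hlt b)
  have h4 := Finset.card_le_card h2
  have h5 := h4.trans (Finset.card_union_le _ _)
  rw [h3, Finset.card_image_of_injective _ he] at h5
  omega

theorem pe3_aux {J : Type u} [Fintype J] (hE : Stmt_EXPO.{u}) (n h : ℕ) (e : J → Fin n → ℕ)
    (Y : Finset (J × Fin n)) (r : ℕ) (he : ∀ j, Function.Injective (e j))
    (hlt : ∀ j a, e j a < n + h) (hrn : r ≤ n) (Z : Finset (J × Fin n))
    (hYZ : ∀ p ∈ Y, ∀ q ∈ Z, p.1 ≠ q.1) :
    pr (fun ω : Cfg J n => r + h ≤ (cs e ω Y).card ∧ ∀ p ∈ Z, col e ω p ∉ cs e ω Y) ≤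
      (1 - (r : ℝ) / n) ^ Z.card := by
  induction Z using Finset.induction_on with
  | empty => simpa using pr_le_one _
  | @insert p Z hp ih =>
    have ih' := ih (fun p hp q hq => hYZ p hp q (Finset.mem_insert_of_mem hq))
    obtain ⟨j, s⟩ := p
    have hYj : ∀ p ∈ Y, p.1 ≠ j := fun p hp => hYZ p hp (j, s) (Finset.mem_insert_self _ _)
    have hn : 0 < n := lt_of_le_of_lt (Nat.zero_le _) s.2
    have hnR : (0 : ℝ) < n := by exact_mod_cast hn
    have hr1 : (r : ℝ) / n ≤ 1 := by
      rw [div_le_one hnR]; exact_mod_cast hrn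
    have h0 : (0 : ℝ) ≤ 1 - (r : ℝ) / n := by linarith
    set A : Cfg J n → Prop :=
      fun ω => r + h ≤ (cs e ω Y).card ∧ ∀ p ∈ Z, col e ω p ∉ cs e ω Y with hA
    by_cases hex : ∃ ω, A ω
    swap
    · -- impossible
      have : pr (fun ω : Cfg J n => r + h ≤ (cs e ω Y).card ∧
          ∀ p ∈ insert (j, s) Z, col e ω p ∉ cs e ω Y) = 0 := by
        apply pr_eq_zero
        intro ω hω
        exact hex ⟨ω, hω.1, fun p hp => hω.2 p (Finset.mem_insert_of_mem hp)⟩
      rw [this]
      positivity
    set Q : Finset (J × Fin n) := Y ∪ Z with hQ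
    set q : ℕ := (Q.filter (fun p => p.1 = j)).card with hq
    have hQj : Q.filter (fun p => p.1 = j) = Z.filter (fun p => p.1 = j) := by
      ext p
      rw [Finset.mem_filter, Finset.mem_filter, hQ, Finset.mem_union]
      constructor
      · rintro ⟨h1 | h1, h2⟩
        · exact absurd h2 (hYj p h1)
        · exact ⟨h1, h2⟩
      · rintro ⟨h1, h2⟩
        exact ⟨Or.inr h1, h2⟩
    have hjs : (j, s) ∉ Q := by
      rw [hQ, Finset.mem_union]
      rintro (h1 | h1)
      · exact hYj _ h1 rfl
      · exact hp h1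
    have hcsub : ∀ ω : Cfg J n, cs e ω Y ⊆ range (n + h) := by
      intro ω c hc
      obtain ⟨p, _, hpc⟩ := Finset.mem_image.1 hc
      rw [Finset.mem_range, ← hpc]
      exact hlt _ _
    -- the used colours of block `j`
    have hused : ∀ ω, A ω → ((univ.filter (fun b : Fin n => e j b ∉ cs e ω Y)).filter
        (fun b => ∀ p ∈ Q, p.1 = j → ω j p.2 ≠ b)).card + q + r ≤ n := by
      intro ω hω
      have h1 := free_card (e j) (he j) (hlt j) (cs e ω Y) (hcsub ω) r hω.1
      set F := univ.filter (fun b : Fin n => e j b ∉ cs e ω Y) with hF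
      set U := (Q.filter (fun p => p.1 = j)).image (fun p => ω j p.2) with hU
      have h2 : U.card = q := by
        rw [hU, Finset.card_image_of_injOn]
        intro p hp p' hp' hpp
        rw [Finset.mem_coe, Finset.mem_filter] at hp hp'
        have h3 := (ω j).injective hpp
        exact Prod.ext (hp.2.trans hp'.2.symm) h3
      have h3 : U ⊆ F := by
        intro b hb
        obtain ⟨p, hp, hpb⟩ := Finset.mem_image.1 hb
        rw [hQj, Finset.mem_filter] at hp
        have h4 := hω.2 p hp.1
        rw [hF, Finset.mem_filter]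
        refine ⟨Finset.mem_univ _, ?_⟩
        unfold col at h4
        rw [hp.2] at h4
        rw [← hpb]
        exact h4
      have h5 : F.filter (fun b => ∀ p ∈ Q, p.1 = j → ω j p.2 ≠ b) ⊆ F \ U := by
        intro b hb
        rw [Finset.mem_filter] at hb
        rw [Finset.mem_sdiff]
        refine ⟨hb.1, fun hbU => ?_⟩
        obtain ⟨p, hp, hpb⟩ := Finset.mem_image.1 hbU
        rw [Finset.mem_filter] at hp
        exact hb.2 p hp.1 hp.2 hpb
      have h6 := Finset.card_le_card h5
      rw [Finset.card_sdiff_of_subset h3, h2] at h6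
      have h7 := Finset.card_le_card h3
      rw [h2] at h7
      omega
    have hcong : ∀ ω ω' : Cfg J n, (∀ p ∈ Q, ω p.1 p.2 = ω' p.1 p.2) →
        cs e ω Y = cs e ω' Y := by
      intro ω ω' h1
      unfold cs
      apply Finset.image_congr
      intro p hp
      unfold col
      rw [h1 p (Finset.mem_union_left _ hp)]
    have key := hE J n Q A (fun ω => univ.filter (fun b => e j b ∉ cs e ω Y)) j s (n - r - q)
      ?_ ?_ hjs ?_
    · rw [Finset.card_insert_of_notMem hp, pow_succ]
      obtain ⟨ω₀, hω₀⟩ := hex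
      have hqn : q + r ≤ n := by
        have := hused ω₀ hω₀
        omega
      have hqlt : q < n := by
        have h1 : (Q.filter (fun p => p.1 = j)).card ≤ ((univ : Finset (Fin n)).erase s).card := by
          apply Finset.card_le_card_of_injOn (fun p => p.2)
          · intro p hp
            rw [Finset.mem_coe, Finset.mem_filter] at hp
            rw [Finset.mem_coe, Finset.mem_erase]
            refine ⟨fun h2 => hjs ?_, Finset.mem_univ _⟩
            have : p = (j, s) := Prod.ext hp.2 h2
            rw [← this]; exact hp.1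
          · intro p hp p' hp' hpp
            rw [Finset.mem_coe, Finset.mem_filter] at hp hp'
            exact Prod.ext (hp.2.trans hp'.2.symm) hpp
        rw [Finset.card_erase_of_mem (Finset.mem_univ _), Finset.card_univ,
          Fintype.card_fin] at h1
        omega
      have hcast : ((n - r - q : ℕ) : ℝ) = (n : ℝ) - r - q := by
        rw [Nat.cast_sub (by omega), Nat.cast_sub hrn]
      have h4 : pr (fun ω : Cfg J n => r + h ≤ (cs e ω Y).card ∧
            ∀ p ∈ insert (j, s) Z, col e ω p ∉ cs e ω Y) ≤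
          pr (fun ω : Cfg J n => A ω ∧ ω j s ∈ univ.filter (fun b => e j b ∉ cs e ω Y)) := by
        apply pr_mono
        intro ω hω
        refine ⟨⟨hω.1, fun p hp => hω.2 p (Finset.mem_insert_of_mem hp)⟩, ?_⟩
        rw [Finset.mem_filter]
        exact ⟨Finset.mem_univ _, hω.2 (j, s) (Finset.mem_insert_self _ _)⟩
      refine h4.trans ?_
      set a := pr (fun ω : Cfg J n => A ω ∧ ω j s ∈ univ.filter (fun b => e j b ∉ cs e ω Y))
        with ha
      rw [hcast] at key
      have hqR : (q : ℝ) < n := by exact_mod_cast hqlt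
      have hb0 : 0 ≤ pr A := pr_nonneg _
      have hq0 : (0 : ℝ) ≤ q := Nat.cast_nonneg _
      have hr0 : (0 : ℝ) ≤ r := Nat.cast_nonneg _
      have h7 : ((n : ℝ) - q) * a ≤ ((n : ℝ) - q) * ((1 - (r : ℝ) / n) * pr A) := by
        have h8 : (n : ℝ) - r - q ≤ ((n : ℝ) - q) * (1 - (r : ℝ) / n) := by
          have h9 : ((n : ℝ) - q) * (1 - (r : ℝ) / n) = (n : ℝ) - r - q + q * r / n := by
            field_simp
            ring
          rw [h9]
          have : (0 : ℝ) ≤ q * r / n := by positivity
          linarith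
        calc ((n : ℝ) - q) * a ≤ ((n : ℝ) - r - q) * pr A := key
          _ ≤ (((n : ℝ) - q) * (1 - (r : ℝ) / n)) * pr A :=
              mul_le_mul_of_nonneg_right h8 hb0
          _ = ((n : ℝ) - q) * ((1 - (r : ℝ) / n) * pr A) := by ring
      have h8 : a ≤ (1 - (r : ℝ) / n) * pr A :=
        le_of_mul_le_mul_left h7 (by linarith)
      refine h8.trans ?_
      rw [mul_comm]
      exact mul_le_mul_of_nonneg_right ih' h0
    · -- DepOn A
      intro ω ω' h1
      have h2 := hcong ω ω' h1
      apply propext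
      have h3 : ∀ p ∈ Z, col e ω p = col e ω' p := by
        intro p hp
        unfold col
        rw [h1 p (Finset.mem_union_right _ hp)]
      rw [hA]
      simp only
      rw [h2]
      constructor
      · rintro ⟨h4, h5⟩
        exact ⟨h4, fun p hp => h3 p hp ▸ h5 p hp⟩
      · rintro ⟨h4, h5⟩
        refine ⟨h4, fun p hp => ?_⟩
        rw [h3 p hp]; exact h5 p hp
    · -- DepOn R
      intro ω ω' h1
      simp only [hcong ω ω' h1]
    · intro ω hω
      have := hused ω hω
      have h9 : q = (Q.filter (fun p => p.1 = j)).card := hq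
      omega

/-- the sum over subsets identity: `2^{|Z| - hits}` counts the subsets without hits -/
theorem count_sub {α : Type v} (Z : Finset α) (H : α → Prop) (g : ℕ)
    (hg : (Z.filter H).card < g) :
    (2 : ℝ) ^ Z.card ≤ 2 ^ g * ∑ Z' ∈ Z.powerset, (if ∀ p ∈ Z', ¬ H p then (1 : ℝ) else 0) := by
  have h1 : ∑ Z' ∈ Z.powerset, (if ∀ p ∈ Z', ¬ H p then (1 : ℝ) else 0) =
      2 ^ (Z.filter (fun p => ¬ H p)).card := by
    rw [← Finset.sum_filter, Finset.sum_const, nsmul_eq_mul, mul_one]
    have : Z.powerset.filter (fun Z' => ∀ p ∈ Z', ¬ H p) =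
        (Z.filter (fun p => ¬ H p)).powerset := by
      ext Z'
      rw [Finset.mem_filter, Finset.mem_powerset, Finset.mem_powerset]
      constructor
      · rintro ⟨h1, h2⟩ p hp
        exact Finset.mem_filter.2 ⟨h1 hp, h2 p hp⟩
      · intro h1
        exact ⟨fun p hp => (Finset.mem_filter.1 (h1 hp)).1,
          fun p hp => (Finset.mem_filter.1 (h1 hp)).2⟩
    rw [this, Finset.card_powerset]
    push_cast
    rfl
  rw [h1, ← pow_add]
  apply pow_le_pow_right₀ (by norm_num)
  have := Finset.card_filter_add_card_filter_not (s := Z) H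
  omega

end h65

theorem stmt_PE3 (hE : Stmt_EXPO.{u}) : Stmt_PE3.{u} := by
  intro J _ n h e Y Z g r he hlt hYZ hrn
  have hsum : (2 : ℝ) ^ Z.card * pr (fun ω : Cfg J n => r + h ≤ (cs e ω Y).card ∧
      (Z.filter (fun p => col e ω p ∈ cs e ω Y)).card < g) ≤
      2 ^ g * ∑ Z' ∈ Z.powerset, pr (fun ω : Cfg J n => r + h ≤ (cs e ω Y).card ∧
        ∀ p ∈ Z', col e ω p ∉ cs e ω Y) := by
    have hpr : ∀ E : Cfg J n → Prop, pr E =
        (∑ ω : Cfg J n, (if E ω then (1 : ℝ) else 0)) / (Fintype.card (Cfg J n) : ℝ) := by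
      intro E
      unfold pr
      congr 1
      rw [← Finset.sum_filter, Finset.sum_const, nsmul_eq_mul, mul_one]
    simp only [hpr]
    rw [← Finset.sum_div, mul_div_assoc', mul_div_assoc']
    apply div_le_div_of_nonneg_right _ (Nat.cast_nonneg _)
    rw [Finset.sum_comm, Finset.mul_sum, Finset.mul_sum]
    apply Finset.sum_le_sum
    intro ω _
    by_cases hω : r + h ≤ (cs e ω Y).card ∧ (Z.filter (fun p => col e ω p ∈ cs e ω Y)).card < g
    · rw [if_pos hω, mul_one]
      have h1 := h65.count_sub Z (fun p => col e ω p ∈ cs e ω Y) g (by convert hω.2)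
      refine h1.trans ?_
      apply mul_le_mul_of_nonneg_left _ (by positivity)
      apply le_of_eq
      apply Finset.sum_congr rfl
      intro Z' _
      by_cases h2 : ∀ p ∈ Z', col e ω p ∉ cs e ω Y
      · rw [if_pos h2, if_pos ⟨hω.1, h2⟩]
      · rw [if_neg h2, if_neg (fun h3 => h2 h3.2)]
    · rw [if_neg hω, mul_zero]
      apply mul_nonneg (by positivity)
      apply Finset.sum_nonneg
      intro Z' _
      split_ifs <;> norm_num
  have hle : ∑ Z' ∈ Z.powerset, pr (fun ω : Cfg J n => r + h ≤ (cs e ω Y).card ∧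
        ∀ p ∈ Z', col e ω p ∉ cs e ω Y) ≤ ((1 - (r : ℝ) / n) + 1) ^ Z.card := by
    rw [← Finset.sum_pow_mul_eq_add_pow]
    apply Finset.sum_le_sum
    intro Z' hZ'
    rw [one_pow, mul_one]
    rw [Finset.mem_powerset] at hZ'
    exact h65.pe3_aux hE n h e Y r he hlt hrn Z' (fun p hp q hq => hYZ p hp q (hZ' hq))
  have h2 : (0 : ℝ) < 2 ^ Z.card := by positivity
  have h3 : (2 : ℝ) ^ Z.card * pr (fun ω : Cfg J n => r + h ≤ (cs e ω Y).card ∧
      (Z.filter (fun p => col e ω p ∈ cs e ω Y)).card < g) ≤
      2 ^ Z.card * (2 ^ g * (1 - (r : ℝ) / (2 * n)) ^ Z.card) := by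
    refine hsum.trans ?_
    refine (mul_le_mul_of_nonneg_left hle (by positivity)).trans (le_of_eq ?_)
    have h4 : (1 - (r : ℝ) / n) + 1 = 2 * (1 - (r : ℝ) / (2 * n)) := by
      have : (r : ℝ) / (2 * n) = (r : ℝ) / n / 2 := by rw [mul_comm, div_mul_eq_div_div]
      rw [this]; ring
    rw [h4, mul_pow]
    ring
  exact le_of_mul_le_mul_left h3 h2

end Pool.Agent.Work.MP_db9399_all
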