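import Pool.Agent.Work.MP_db9399_all_helper65.PE1

/-!
# Block RNH: few hits are unlikely
-/

set_option autoImplicit false

namespace Pool.Agent.Work.MP_db9399_all

open Finset Classical

universe u v

namespace h65

/-- sum over a product space of a product -/
theorem sum_prod_pi {J : Type u} [Fintype J] {M : ℕ} (φ : J → Fin M → ℝ) :
    ∑ f : J → Fin M, ∏ y, φ y (f y) = ∏ y, ∑ b, φ y b := by
  rw [Finset.prod_univ_sum, Fintype.piFinset_univ]

theorem rnh_factor {M : ℕ} (B : Finset (Fin M)) (s : ℝ) (hB : s * M ≤ (B.card : ℝ)) :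
    ∑ b : Fin M, (if b ∈ B then (1 / 2 : ℝ) else 1) ≤ M * Real.exp (-(s / 2)) := by
  have h1 : ∑ b : Fin M, (if b ∈ B then (1 / 2 : ℝ) else 1) = M - (B.card : ℝ) / 2 := by
    have h2 : ∀ b : Fin M, (if b ∈ B then (1 / 2 : ℝ) else 1) =
        1 - (if b ∈ B then (1 / 2 : ℝ) else 0) := by
      intro b
      split_ifs <;> norm_num
    simp only [h2]
    rw [Finset.sum_sub_distrib, Finset.sum_const, Finset.card_univ, Fintype.card_fin,
      ← Finset.sum_filter, Finset.sum_const]
    have h3 : (univ.filter (fun b : Fin M => b ∈ B)) = B := by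
      ext b; simp
    rw [h3]
    simp only [nsmul_eq_mul]
    ring
  rw [h1]
  have h2 := Real.add_one_le_exp (-(s / 2))
  have h3 : (0 : ℝ) ≤ M := Nat.cast_nonneg _
  nlinarith

theorem exp_cmp : Real.exp (-(1 / 2 : ℝ)) * 2 ^ (1 / 2 : ℝ) ≤ Real.exp (-(3 / 20 : ℝ)) := by
  rw [Real.rpow_def_of_pos (by norm_num), ← Real.exp_add]
  apply Real.exp_le_exp.2
  have := Real.log_two_lt_d9
  linarith

end h65

theorem stmt_RNH : Stmt_RNH.{u} := by
  intro J _ M A B s hM hs0 hs1 hB
  have hMR : (0 : ℝ) < M := by exact_mod_cast hM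
  set a : ℝ := (A.card : ℝ) with ha
  have ha0 : 0 ≤ a := Nat.cast_nonneg _
  -- exponential moment
  have h1 : ∑ f : J → Fin M, ∏ y : J, (if y ∈ A ∧ f y ∈ B y then (1 / 2 : ℝ) else 1) ≤
      (M : ℝ) ^ (Fintype.card J) * Real.exp (-(s / 2) * a) := by
    rw [h65.sum_prod_pi (fun y b => if y ∈ A ∧ b ∈ B y then (1 / 2 : ℝ) else 1)]
    have h2 : ∀ y : J, ∑ b : Fin M, (if y ∈ A ∧ b ∈ B y then (1 / 2 : ℝ) else 1) ≤
        M * (if y ∈ A then Real.exp (-(s / 2)) else 1) := by
      intro y
      by_cases hy : y ∈ A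
      · simp only [hy, true_and, if_true]
        exact h65.rnh_factor (B y) s (hB y hy)
      · simp [hy]
    refine (Finset.prod_le_prod (fun y _ => ?_) (fun y _ => h2 y)).trans (le_of_eq ?_)
    · apply Finset.sum_nonneg
      intro b _
      split_ifs <;> norm_num
    · rw [Finset.prod_mul_distrib, Finset.prod_const, Finset.card_univ]
      congr 1
      rw [Finset.prod_ite, Finset.prod_const_one, mul_one, Finset.prod_const]
      have h3 : univ.filter (fun y => y ∈ A) = A := by ext y; simp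
      rw [h3, ← Real.exp_nat_mul]
      congr 1
      ring
  -- Markov
  have h2 : ∀ f : J → Fin M, ((A.filter (fun y => f y ∈ B y)).card : ℝ) < s / 2 * a →
      (1 : ℝ) ≤ 2 ^ (s / 2 * a) *
        ∏ y : J, (if y ∈ A ∧ f y ∈ B y then (1 / 2 : ℝ) else 1) := by
    intro f hf
    have h3 : ∏ y : J, (if y ∈ A ∧ f y ∈ B y then (1 / 2 : ℝ) else 1) =
        (1 / 2) ^ (A.filter (fun y => f y ∈ B y)).card := by
      rw [Finset.prod_ite, Finset.prod_const_one, mul_one, Finset.prod_const]
      congr 2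
      ext y; simp
    rw [h3, one_div, inv_pow, ← Real.rpow_natCast, ← Real.rpow_neg (by norm_num),
      ← Real.rpow_add (by norm_num)]
    apply Real.one_le_rpow (by norm_num)
    linarith
  have hcard : (Fintype.card (J → Fin M) : ℝ) = (M : ℝ) ^ (Fintype.card J) := by
    rw [Fintype.card_fun, Fintype.card_fin]
    push_cast
    rfl
  have h3 : ((univ.filter (fun f : J → Fin M =>
      ((A.filter (fun y => f y ∈ B y)).card : ℝ) < s / 2 * a)).card : ℝ) ≤
      2 ^ (s / 2 * a) * ((M : ℝ) ^ (Fintype.card J) * Real.exp (-(s / 2) * a)) := by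
    calc ((univ.filter (fun f : J → Fin M =>
      ((A.filter (fun y => f y ∈ B y)).card : ℝ) < s / 2 * a)).card : ℝ)
        = ∑ f ∈ univ.filter (fun f : J → Fin M =>
          ((A.filter (fun y => f y ∈ B y)).card : ℝ) < s / 2 * a), (1 : ℝ) := by
          rw [Finset.sum_const, nsmul_eq_mul, mul_one]
      _ ≤ ∑ f ∈ univ.filter (fun f : J → Fin M =>
          ((A.filter (fun y => f y ∈ B y)).card : ℝ) < s / 2 * a), 2 ^ (s / 2 * a) *
            ∏ y : J, (if y ∈ A ∧ f y ∈ B y then (1 / 2 : ℝ) else 1) := by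
          apply Finset.sum_le_sum
          intro f hf
          exact h2 f (Finset.mem_filter.1 hf).2
      _ ≤ ∑ f : J → Fin M, 2 ^ (s / 2 * a) *
            ∏ y : J, (if y ∈ A ∧ f y ∈ B y then (1 / 2 : ℝ) else 1) := by
          apply Finset.sum_le_sum_of_subset_of_nonneg (Finset.filter_subset _ _)
          intro f _ _
          apply mul_nonneg (by positivity)
          apply Finset.prod_nonneg
          intro y _
          split_ifs <;> norm_num
      _ ≤ _ := by
          rw [← Finset.mul_sum]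
          exact mul_le_mul_of_nonneg_left h1 (by positivity)
  unfold pr
  rw [hcard, div_le_iff₀ (by positivity)]
  refine h3.trans ?_
  have h4 : (2 : ℝ) ^ (s / 2 * a) * Real.exp (-(s / 2) * a) ≤ Real.exp (-(3 / 20) * s * a) := by
    have h5 : (Real.exp (-(1 / 2 : ℝ)) * 2 ^ (1 / 2 : ℝ)) ^ (s * a) ≤
        (Real.exp (-(3 / 20 : ℝ))) ^ (s * a) :=
      Real.rpow_le_rpow (by positivity) h65.exp_cmp (by positivity)
    rw [Real.mul_rpow (by positivity) (by positivity), ← Real.exp_mul, ← Real.exp_mul,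
      ← Real.rpow_mul (by norm_num)] at h5
    have h6 : s / 2 * a = 1 / 2 * (s * a) := by ring
    have h7 : -(s / 2) * a = -(1 / 2) * (s * a) := by ring
    have h8 : -(3 / 20) * s * a = -(3 / 20) * (s * a) := by ring
    rw [h6, h7, h8, mul_comm]
    exact h5
  calc (2 : ℝ) ^ (s / 2 * a) * ((M : ℝ) ^ (Fintype.card J) * Real.exp (-(s / 2) * a))
      = ((2 : ℝ) ^ (s / 2 * a) * Real.exp (-(s / 2) * a)) * (M : ℝ) ^ (Fintype.card J) := by ring
    _ ≤ _ := mul_le_mul_of_nonneg_right h4 (by positivity)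

end Pool.Agent.Work.MP_db9399_all
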