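import Pool.Agent.Work.MP_db9399_all_helper65.PE1

/-!
# Block RNK: total probability of the killing patterns
-/

set_option autoImplicit false

namespace Pool.Agent.Work.MP_db9399_all

open Finset Classical

universe u v

namespace h65

/-- probability of one pattern -/
theorem rnk_pr {J : Type u} [Fintype J] (N q : ℕ) (A : Finset J) (g : J → J) (hN : 0 < N)
    (hq : 0 < q) (hg : ∀ y ∈ A, g y ∉ A) :
    pr (fun f : J → Fin (q * N) => ∀ y ∈ A, f (g y) = f y ∧ (f y : ℕ) < N) ≤
      (1 / (q : ℝ)) ^ (A.image g).card * (1 / ((q : ℝ) * N)) ^ A.card := by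
  have hqN : 0 < q * N := Nat.mul_pos hq hN
  set b0 : Fin (q * N) := ⟨0, hqN⟩ with hb0
  set C : J → Finset (Fin (q * N)) := fun y =>
    if y ∈ A then {b0} else if y ∈ A.image g then univ.filter (fun a => (a : ℕ) < N) else univ
    with hC
  have hinj : (univ.filter (fun f : J → Fin (q * N) =>
      ∀ y ∈ A, f (g y) = f y ∧ (f y : ℕ) < N)).card ≤ (Fintype.piFinset C).card := by
    apply Finset.card_le_card_of_injOn (fun f y => if y ∈ A then b0 else f y)
    · intro f hf
      rw [Finset.mem_coe, Finset.mem_filter] at hf
      rw [Finset.mem_coe, Fintype.mem_piFinset]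
      intro y
      rw [hC]
      simp only
      by_cases hy : y ∈ A
      · rw [if_pos hy, if_pos hy]
        exact Finset.mem_singleton_self _
      · rw [if_neg hy, if_neg hy]
        by_cases hy2 : y ∈ A.image g
        · rw [if_pos hy2, Finset.mem_filter]
          refine ⟨Finset.mem_univ _, ?_⟩
          obtain ⟨z, hz, hzy⟩ := Finset.mem_image.1 hy2
          have := hf.2 z hz
          rw [← hzy, this.1]
          exact this.2
        · rw [if_neg hy2]
          exact Finset.mem_univ _
    · intro f hf f' hf' hff
      rw [Finset.mem_coe, Finset.mem_filter] at hf hf'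
      have hout : ∀ y, y ∉ A → f y = f' y := by
        intro y hy
        have := congrFun hff y
        simp only [if_neg hy] at this
        exact this
      funext y
      by_cases hy : y ∈ A
      · rw [← (hf.2 y hy).1, ← (hf'.2 y hy).1]
        exact hout _ (hg y hy)
      · exact hout y hy
  have hfil : (univ.filter (fun a : Fin (q * N) => (a : ℕ) < N)).card ≤ N := by
    have : (univ.filter (fun a : Fin (q * N) => (a : ℕ) < N)).card ≤ (range N).card := by
      apply Finset.card_le_card_of_injOn (fun a : Fin (q * N) => (a : ℕ))
      · intro a ha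
        rw [Finset.mem_coe, Finset.mem_filter] at ha
        rw [Finset.mem_coe, Finset.mem_range]
        exact ha.2
      · intro a _ a' _ h
        exact Fin.ext h
    rwa [Finset.card_range] at this
  have hcardC : ((Fintype.piFinset C).card : ℝ) ≤
      (q * N : ℝ) ^ (Fintype.card J) *
        ((1 / (q : ℝ)) ^ (A.image g).card * (1 / ((q : ℝ) * N)) ^ A.card) := by
    have hqR : (0 : ℝ) < q := by exact_mod_cast hq
    have hNR : (0 : ℝ) < N := by exact_mod_cast hN
    rw [Fintype.card_piFinset]
    push_cast
    have h1 : ∀ y : J, ((C y).card : ℝ) ≤ (q * N : ℝ) *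
        ((if y ∈ A.image g then 1 / (q : ℝ) else 1) *
          (if y ∈ A then 1 / ((q : ℝ) * N) else 1)) := by
      intro y
      rw [hC]
      simp only
      by_cases hy : y ∈ A
      · have hy2 : y ∉ A.image g := by
          intro h
          obtain ⟨z, hz, hzy⟩ := Finset.mem_image.1 h
          exact hg z hz (hzy ▸ hy)
        rw [if_pos hy, if_pos hy, if_neg hy2, Finset.card_singleton]
        have : (q * N : ℝ) * (1 * (1 / ((q : ℝ) * N))) = 1 := by field_simp
        rw [this]
        norm_num
      · rw [if_neg hy, if_neg hy]
        by_cases hy2 : y ∈ A.image g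
        · rw [if_pos hy2, if_pos hy2]
          have : (q * N : ℝ) * (1 / (q : ℝ) * 1) = N := by field_simp
          rw [this]
          exact_mod_cast hfil
        · rw [if_neg hy2, if_neg hy2, Finset.card_univ, Fintype.card_fin]
          push_cast
          rw [mul_one, mul_one]
    refine (Finset.prod_le_prod (fun y _ => Nat.cast_nonneg _) (fun y _ => h1 y)).trans
      (le_of_eq ?_)
    have h2 : ∀ c : ℝ, ∏ y : J, c * ((if y ∈ A.image g then 1 / (q : ℝ) else 1) *
          (if y ∈ A then 1 / ((q : ℝ) * N) else 1)) = c ^ (Fintype.card J) *
        ((1 / (q : ℝ)) ^ (A.image g).card * (1 / ((q : ℝ) * N)) ^ A.card) := by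
      intro c
      rw [Finset.prod_mul_distrib, Finset.prod_mul_distrib, Finset.prod_const, Finset.card_univ]
      congr 1
      congr 1
      · rw [Finset.prod_ite, Finset.prod_const_one, mul_one, Finset.prod_const]
        congr 2
        ext y; simp
      · rw [Finset.prod_ite, Finset.prod_const_one, mul_one, Finset.prod_const]
        congr 2
        ext y; simp
    exact h2 _
  have hcard : (Fintype.card (J → Fin (q * N)) : ℝ) = (q * N : ℝ) ^ (Fintype.card J) := by
    rw [Fintype.card_fun, Fintype.card_fin]
    push_cast
    rfl
  have hqR : (0 : ℝ) < q := by exact_mod_cast hq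
  have hNR : (0 : ℝ) < N := by exact_mod_cast hN
  unfold pr
  rw [hcard, div_le_iff₀ (by positivity)]
  have h2 : ((Fintype.piFinset C).card : ℝ) ≤
      (1 / (q : ℝ)) ^ (A.image g).card * (1 / ((q : ℝ) * N)) ^ A.card *
        ((q : ℝ) * N) ^ Fintype.card J := by
    refine hcardC.trans (le_of_eq ?_)
    ring
  refine le_trans ?_ h2
  refine Nat.cast_le.2 ?_
  convert hinj

/-- the sum over the patterns -/
theorem rnk_sum {J : Type u} [Fintype J] (q : ℕ) (A : Finset J) (Kl : J → Finset J) (K : ℕ)
    (hq : 0 < q) (hK : ∀ y ∈ A, (Kl y).card ≤ K) (A' : Finset J) (hA' : A' ⊆ A) :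
    ∑ g ∈ Fintype.piFinset (fun y : J => if y ∈ A' then Kl y \ A else {y}),
      (1 / (q : ℝ)) ^ (A'.image g).card ≤ ((A.card : ℝ) + K / q) ^ A'.card := by
  have hqR : (0 : ℝ) < q := by exact_mod_cast hq
  induction A' using Finset.induction_on with
  | empty =>
    simp only [Finset.notMem_empty, if_false, Finset.image_empty, Finset.card_empty, pow_zero]
    rw [Finset.sum_const, Fintype.card_piFinset]
    simp
  | @insert x A' hx ih =>
    have hxA : x ∈ A := hA' (Finset.mem_insert_self _ _)
    have hsub : A' ⊆ A := fun y hy => hA' (Finset.mem_insert_of_mem hy)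
    have ih' := ih hsub
    set t' : J → Finset J := fun y => if y ∈ A' then Kl y \ A else {y} with ht'
    set t : J → Finset J := fun y => if y ∈ insert x A' then Kl y \ A else {y} with ht
    -- reparametrise
    have h1 : ∑ g ∈ Fintype.piFinset t, (1 / (q : ℝ)) ^ ((insert x A').image g).card ≤
        ∑ p ∈ (Fintype.piFinset t') ×ˢ (Kl x \ A),
          (1 / (q : ℝ)) ^ ((insert x A').image (Function.update p.1 x p.2)).card := by
      have h2 : ∑ g ∈ Fintype.piFinset t, (1 / (q : ℝ)) ^ ((insert x A').image g).card =
          ∑ p ∈ (Fintype.piFinset t).image (fun g => (Function.update g x x, g x)),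
          (1 / (q : ℝ)) ^ ((insert x A').image (Function.update p.1 x p.2)).card := by
        rw [Finset.sum_image]
        · apply Finset.sum_congr rfl
          intro g _
          simp
        · intro g _ g' _ h
          rw [Prod.mk.injEq] at h
          funext y
          by_cases hy : y = x
          · rw [hy]; exact h.2
          · have := congrFun h.1 y
            rwa [Function.update_of_ne hy, Function.update_of_ne hy] at this
      rw [h2]
      apply Finset.sum_le_sum_of_subset_of_nonneg
      · intro p hp
        obtain ⟨g, hg, hgp⟩ := Finset.mem_image.1 hp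
        rw [Fintype.mem_piFinset] at hg
        rw [Finset.mem_product, ← hgp, Fintype.mem_piFinset]
        constructor
        · intro y
          by_cases hy : y = x
          · rw [hy]
            simp only [Function.update_self]
            rw [ht']
            simp only
            rw [if_neg hx]
            exact Finset.mem_singleton_self _
          · simp only [Function.update_of_ne hy]
            have h3 := hg y
            rw [ht] at h3
            rw [ht']
            simp only [Finset.mem_insert, hy, false_or] at h3
            exact h3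
        · have h3 := hg x
          rw [ht] at h3
          simp only [Finset.mem_insert_self, if_true] at h3
          exact h3
      · intro p _ _
        positivity
    refine h1.trans ?_
    rw [Finset.sum_product, Finset.card_insert_of_notMem hx, pow_succ]
    have h3 : ∀ g ∈ Fintype.piFinset t', ∑ v ∈ Kl x \ A,
        (1 / (q : ℝ)) ^ ((insert x A').image (Function.update g x v)).card ≤
        (1 / (q : ℝ)) ^ (A'.image g).card * ((A.card : ℝ) + K / q) := by
      intro g _
      have h4 : ∀ v, (insert x A').image (Function.update g x v) = insert v (A'.image g) := by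
        intro v
        rw [Finset.image_insert, Function.update_self]
        congr 1
        apply Finset.image_congr
        intro y hy
        have : y ≠ x := fun h => hx (h ▸ hy)
        simp only [Function.update_of_ne this]
      have h5 : ∀ v, (1 / (q : ℝ)) ^ ((insert x A').image (Function.update g x v)).card =
          (1 / (q : ℝ)) ^ (A'.image g).card * (if v ∈ A'.image g then 1 else 1 / (q : ℝ)) := by
        intro v
        rw [h4 v]
        by_cases hv : v ∈ A'.image g
        · rw [Finset.insert_eq_of_mem hv, if_pos hv, mul_one]
        · rw [Finset.card_insert_of_notMem hv, if_neg hv, pow_succ]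
      simp only [h5]
      rw [← Finset.mul_sum]
      apply mul_le_mul_of_nonneg_left _ (by positivity)
      have h6 : ∀ v, (if v ∈ A'.image g then (1 : ℝ) else 1 / (q : ℝ)) ≤
          (if v ∈ A'.image g then (1 : ℝ) else 0) + 1 / (q : ℝ) := by
        intro v
        have : (0 : ℝ) ≤ 1 / (q : ℝ) := by positivity
        split_ifs <;> linarith
      refine (Finset.sum_le_sum (fun v _ => h6 v)).trans ?_
      rw [Finset.sum_add_distrib, ← Finset.sum_filter, Finset.sum_const, Finset.sum_const,
        nsmul_eq_mul, nsmul_eq_mul, mul_one]
      apply add_le_add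
      · have h7 : ((Kl x \ A).filter (fun v => v ∈ A'.image g)).card ≤ A.card := by
          refine (Finset.card_le_card (t := A'.image g) ?_).trans
            (Finset.card_image_le.trans (Finset.card_le_card hsub))
          intro v hv
          exact (Finset.mem_filter.1 hv).2
        exact_mod_cast h7
      · rw [mul_one_div]
        apply div_le_div_of_nonneg_right _ hqR.le
        have : (Kl x \ A).card ≤ K := (Finset.card_le_card Finset.sdiff_subset).trans (hK x hxA)
        exact_mod_cast this
    refine (Finset.sum_le_sum h3).trans ?_
    rw [← Finset.sum_mul]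
    apply mul_le_mul_of_nonneg_right ih'
    positivity

end h65

theorem stmt_RNK : Stmt_RNK.{u} := by
  intro J _ N q A Kl D hN hq hK hA
  have hq0 : 0 < q := by omega
  have hqR : (0 : ℝ) < q := by exact_mod_cast hq0
  have hNR : (0 : ℝ) < N := by exact_mod_cast hN
  have h1 : ∀ g ∈ Fintype.piFinset (fun y : J => if y ∈ A then Kl y \ A else {y}),
      pr (fun f : J → Fin (q * N) => ∀ y ∈ A, f (g y) = f y ∧ (f y : ℕ) < N) ≤
      (1 / (q : ℝ)) ^ (A.image g).card * (1 / ((q : ℝ) * N)) ^ A.card := by
    intro g hg
    apply h65.rnk_pr N q A g hN hq0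
    intro y hy
    have h2 := Fintype.mem_piFinset.1 hg y
    rw [if_pos hy] at h2
    exact (Finset.mem_sdiff.1 h2).2
  refine (Finset.sum_le_sum h1).trans ?_
  rw [← Finset.sum_mul]
  apply mul_le_mul_of_nonneg_right _ (by positivity)
  refine (h65.rnk_sum q A Kl (3 * D) hq0 hK A (Finset.Subset.refl _)).trans ?_
  apply pow_le_pow_left₀ (by positivity)
  have h2 : (A.card : ℝ) ≤ D / q := by
    rw [le_div_iff₀ hqR, mul_comm]
    exact hA
  push_cast
  have h3 : 4 * (D : ℝ) / q = D / q + 3 * D / q := by ring
  rw [h3]
  linarith

end Pool.Agent.Work.MP_db9399_all
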